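import Pool.Agent.Q87.Cox.Plus

set_option autoImplicit false

namespace Pool.Agent.Results.MP_2f4918_al.QPOneTwo

open CoxeterSystem Pool.Agent.Q87.Cox Pool.Agent.Q87.Cox.Wplus

universe u v

theorem eq_of_br {B : Type u} {W : Type v} [Group W] {M : CoxeterMatrix B}
    {cs : CoxeterSystem M W} {v w : W} (h : Br cs v w) (hl : cs.length w ≤ cs.length v) :
    v = w := by
  rcases Relation.ReflTransGen.cases_head h with h1 | ⟨z, h1, h2⟩
  · exact h1
  · exfalso
    obtain ⟨t, _, _, h3⟩ := h1
    have := Br.length_le (cs := cs) h2
    omega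

/-- Left version of the lifting property. -/
theorem lift_left {B : Type u} {W : Type v} [Group W] {M : CoxeterMatrix B}
    {cs : CoxeterSystem M W} {v w : W} {i : B} (h : Br cs v w)
    (h1 : cs.length (cs.simple i * w) < cs.length w)
    (h2 : cs.length v < cs.length (cs.simple i * v)) : Br cs v (cs.simple i * w) := by
  have e : ∀ w : W, w⁻¹ * cs.simple i = (cs.simple i * w)⁻¹ := by
    intro w; simp [mul_inv_rev]
  have h3 := h.inv.lift (i := i) (by rw [e, cs.length_inv, cs.length_inv]; exact h1)
    (by rw [e, cs.length_inv, cs.length_inv]; exact h2)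
  rw [e] at h3
  have h4 := h3.inv
  rwa [inv_inv, inv_inv] at h4

/-- For every Coxeter system and every `W`-conjugacy class of twisted involutions, (QP1) implies
(QP2). -/
theorem result {B : Type u} {W : Type v} [Group W] {M : CoxeterMatrix B}
    (cs : CoxeterSystem M W) (x₀ : Wplus cs) (h0 : x₀ * x₀ = 1)
    (hQ : ∀ r : W, cs.IsReflection r → ∀ w ∈ cls x₀,
      (emb r * w * emb r).len = w.len → emb r * w * emb r = w) :
    ∀ r : W, cs.IsReflection r → ∀ w ∈ cls x₀, ∀ i : B,
      w.len < (emb r * w * emb r).len →
      (emb (cs.simple i) * (emb r * w * emb r) * emb (cs.simple i)).len <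
        (emb (cs.simple i) * w * emb (cs.simple i)).len →
      emb r * w * emb r = emb (cs.simple i) * w * emb (cs.simple i) := by
  intro r hr w hw i h1 h2
  have hrr : r * r = 1 := hr.mul_self
  have hss : cs.simple i * cs.simple i = 1 := cs.simple_mul_simple_self i
  have hbr : Br cs w.left (emb r * w * emb r).left := by
    rcases Wplus.comparable h0 hQ hr hw with h | h
    · exact h
    · have := h.length_le
      unfold len at h1
      omega
  set y : Wplus cs := emb r * w * emb r with hy
  have hyr : y.right = w.right := (left_conj' hrr w).2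
  -- the simple reflection `θ(s)`
  obtain ⟨j, hj⟩ : ∃ j, w.right.1 (cs.simple i) = cs.simple j := by
    have h3 : w.right.1 (cs.simple i) ∈ (fun z => w.right.1 z) '' Set.range cs.simple :=
      ⟨_, ⟨i, rfl⟩, rfl⟩
    have h4 : (fun z => w.right.1 z) '' Set.range cs.simple = Set.range cs.simple := w.right.2
    rw [h4] at h3
    obtain ⟨j, hj⟩ := h3
    exact ⟨j, hj.symm⟩
  have el : (emb (cs.simple i) * w * emb (cs.simple i)).left =
      cs.simple i * w.left * cs.simple j := by rw [(left_conj' hss w).1, hj]
  have er : (emb (cs.simple i) * y * emb (cs.simple i)).left =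
      cs.simple i * y.left * cs.simple j := by rw [(left_conj' hss y).1, hyr, hj]
  unfold len at h1 h2
  rw [el, er] at h2
  -- parity
  have hpar : cs.length y.left % 2 = cs.length w.left % 2 := by
    rw [hy, (left_conj' hrr w).1]
    have h3 := cs.length_mul_mod_two (r * w.left) (w.right.1 r)
    have h4 := cs.length_mul_mod_two r w.left
    have h5 : cs.IsReflection (w.right.1 r) := by
      have h4' : (fun z => w.right.1 z) '' Set.range cs.simple = Set.range cs.simple := w.right.2
      obtain ⟨z, k, rfl⟩ := hr
      have h6 : w.right.1 (cs.simple k) ∈ (fun z => w.right.1 z) '' Set.range cs.simple :=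
        ⟨_, ⟨k, rfl⟩, rfl⟩
      rw [h4'] at h6
      obtain ⟨l, hl⟩ := h6
      refine ⟨w.right.1 z, l, ?_⟩
      rw [map_mul, map_mul, map_inv, hl]
    have h7 := hr.odd_length
    have h8 := h5.odd_length
    rw [Nat.odd_iff] at h7 h8
    omega
  have a1 := cs.length_simple_mul w.left i
  have a2 := cs.length_mul_simple (cs.simple i * w.left) j
  have a3 := cs.length_simple_mul y.left i
  have a4 := cs.length_mul_simple (cs.simple i * y.left) j
  have a5 := cs.length_mul_simple w.left j
  have a6 := cs.length_simple_mul (w.left * cs.simple j) i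
  rw [← mul_assoc] at a6
  have b1 : Br cs w.left (cs.simple i * y.left) := lift_left hbr (by omega) (by omega)
  have b2 : Br cs w.left (cs.simple i * y.left * cs.simple j) := b1.lift (by omega) (by omega)
  have b3 : w.left = cs.simple i * y.left * cs.simple j := eq_of_br b2 (by omega)
  apply SemidirectProduct.ext
  · rw [el, b3]
    simp [mul_assoc]
  · rw [hyr, (left_conj' hss w).2]

end Pool.Agent.Results.MP_2f4918_al.QPOneTwo
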